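import Mathlib

/-!
Arithmetic circuits with free linear combinations, and the types of the partial permutation
monomials which occur in their gates.
-/

set_option autoImplicit false

namespace Pool.Agent.H176R4.MT

open MvPolynomial

/-- The kinds of gates of a circuit with gate set `G`: a variable, a constant, a linear combination
(with coefficients in `K`) of a finite list of gates, or a product of two gates. -/
inductive Kind (K V G : Type) : Type
  | var (v : V)
  | const (c : K)
  | lin (l : List (K × G))
  | mul (a b : G)

/-- An arithmetic circuit over `K` in the variables `V`, together with the polynomials `val g` which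
are computed at its gates `g`.  It is acyclic since the height increases along the wires. -/
structure Circuit (K V : Type) [CommRing K] : Type 1 where
  /-- the gates -/
  Gate : Type
  /-- there are finitely many gates -/
  fin : Finite Gate
  /-- the kind of a gate -/
  kind : Gate → Kind K V Gate
  /-- the height of a gate -/
  height : Gate → ℕ
  /-- the polynomial computed at a gate -/
  val : Gate → MvPolynomial V K
  /-- the gates compute what they should -/
  rule : ∀ g : Gate, match kind g with
    | .var v => val g = X v
    | .const c => val g = C c
    | .lin l => (∀ p ∈ l, height p.2 < height g) ∧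
        val g = (l.map fun p => C p.1 * val p.2).sum
    | .mul a b => height a < height g ∧ height b < height g ∧ val g = val a * val b

/-- The number of product gates. -/
noncomputable def Circuit.products {K V : Type} [CommRing K] (Φ : Circuit K V) : ℕ :=
  {g : Φ.Gate | ∃ a b, Φ.kind g = .mul a b}.ncard

variable {n : ℕ}

/-- The exponent of the partial permutation monomial `∏ i ∈ S, x (i, σ i)`. -/
noncomputable def pm (σ : Equiv.Perm (Fin n)) (S : Finset (Fin n)) : (Fin n × Fin n) →₀ ℕ :=
  ∑ i ∈ S, Finsupp.single (i, σ i) 1

/-- `(S, T)` is a type of `p` if some monomial `∏ i ∈ S, x (i, σ i)` with `σ S = T`, for a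
permutation `σ`, occurs in `p`. -/
def HasType {K : Type} [CommRing K] (p : MvPolynomial (Fin n × Fin n) K)
    (S T : Finset (Fin n)) : Prop :=
  ∃ σ : Equiv.Perm (Fin n), S.map σ.toEmbedding = T ∧ coeff (pm σ S) p ≠ 0

/-- The homogeneous products of a circuit: the triples of a product gate `a * b`, a type `(S, T)`
of `a` and a type `(S', T')` of `b` such that `S`, `S'` are nonempty and disjoint, and `T`, `T'` are
disjoint. -/
def Circuit.homProducts {K : Type} [CommRing K] (Φ : Circuit K (Fin n × Fin n)) :
    Set (Φ.Gate × (Finset (Fin n) × Finset (Fin n)) × (Finset (Fin n) × Finset (Fin n))) :=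
  {e | ∃ a b, Φ.kind e.1 = .mul a b ∧
    HasType (Φ.val a) e.2.1.1 e.2.1.2 ∧ HasType (Φ.val b) e.2.2.1 e.2.2.2 ∧
    e.2.1.1.Nonempty ∧ e.2.2.1.Nonempty ∧
    Disjoint e.2.1.1 e.2.2.1 ∧ Disjoint e.2.1.2 e.2.2.2}

end Pool.Agent.H176R4.MT
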