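import Mathlib

/-!
A numerical inequality: the cost of a binary product tree with `n` leaves.
-/

set_option autoImplicit false

namespace Pool.Agent.H176R4.MT

open Finset Nat

/-- partial sums of binomial coefficients -/
def f (N r : ℕ) : ℚ := ∑ k ∈ range r, (N.choose k : ℚ)

lemma f_zero (N : ℕ) : f N 0 = 0 := by simp [f]

lemma f_one (N : ℕ) : f N 1 = 1 := by simp [f]

lemma f_succ (N r : ℕ) : f N (r + 1) = f N r + N.choose r := by
  unfold f
  rw [sum_range_succ]

lemma f_pascal (N r : ℕ) : f (N + 1) (r + 1) = f N (r + 1) + f N r := by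
  induction r with
  | zero => simp [f]
  | succ r ih =>
    rw [f_succ, ih, f_succ N (r + 1), f_succ N r, Nat.choose_succ_succ]
    push_cast
    ring

lemma f_total (N : ℕ) : f N (N + 1) = 2 ^ N := by
  unfold f
  exact_mod_cast Nat.sum_range_choose N

lemma f_compl (N : ℕ) : ∀ b a : ℕ, a + b = N + 1 → f N a + f N b = 2 ^ N := by
  intro b
  induction b with
  | zero =>
    intro a h
    rw [Nat.add_zero] at h
    rw [h, f_zero, add_zero, f_total]
  | succ b ih =>
    intro a h
    have h1 := ih (a + 1) (by omega)
    rw [f_succ] at h1 ⊢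
    have h2 : N.choose a = N.choose b := by
      apply Nat.choose_symm_of_eq_add
      omega
    rw [h2] at h1
    linarith

lemma fac1 (i : ℕ) (hi : 1 ≤ i) : ∀ j : ℕ, i ! * (j + 1)! ≤ (i + j)! := by
  intro j
  induction j with
  | zero => simp
  | succ j ih =>
    have h1 : (j + 1 + 1)! = (j + 2) * (j + 1)! := Nat.factorial_succ (j + 1)
    have h2 : (i + (j + 1))! = (i + j + 1) * (i + j)! := Nat.factorial_succ (i + j)
    rw [h1, h2]
    calc i ! * ((j + 2) * (j + 1)!) = (j + 2) * (i ! * (j + 1)!) := by ring
      _ ≤ (j + 2) * (i + j)! := Nat.mul_le_mul_left _ ih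
      _ ≤ (i + j + 1) * (i + j)! := Nat.mul_le_mul_right _ (by omega)

lemma fac2 (a : ℕ) : ∀ b : ℕ, (a + 2)! * (b + 2)! ≤ 2 * (a + b + 2)! := by
  intro b
  induction b with
  | zero =>
    simp only [Nat.add_zero, Nat.zero_add]
    have : (2 : ℕ)! = 2 := rfl
    rw [this, mul_comm]
  | succ b ih =>
    have h1 : (b + 1 + 2)! = (b + 3) * (b + 2)! := Nat.factorial_succ (b + 2)
    have h2 : (a + (b + 1) + 2)! = (a + b + 3) * (a + b + 2)! := by
      have : a + (b + 1) + 2 = a + b + 2 + 1 := by ring
      rw [this]
      exact Nat.factorial_succ (a + b + 2)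
    rw [h1, h2]
    calc (a + 2)! * ((b + 3) * (b + 2)!) = (b + 3) * ((a + 2)! * (b + 2)!) := by ring
      _ ≤ (b + 3) * (2 * (a + b + 2)!) := Nat.mul_le_mul_left _ ih
      _ ≤ (a + b + 3) * (2 * (a + b + 2)!) := Nat.mul_le_mul_right _ (by omega)
      _ = 2 * ((a + b + 3) * (a + b + 2)!) := by ring

/-- the error term of the induction -/
lemma err (i' j' m : ℕ) (hj : 1 ≤ j') (hij : j' ≤ i') (hm : 1 ≤ m) :
    ((m + i' + j' + 1).choose j' : ℚ) - 1 ≤
      ((m + i' + j' + 1)! : ℚ) * j' / ((i' + 1)! * (j' + 1)! * (m + 1)!) := by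
  -- C := choose
  set C : ℚ := ((m + i' + j' + 1).choose j' : ℚ) with hC
  have hCpos : 0 < C := by
    rw [hC]
    exact_mod_cast Nat.choose_pos (by omega)
  have h1 : ((m + i' + j' + 1)! : ℚ) = C * (j')! * (m + i' + 1)! := by
    rw [hC]
    have := Nat.choose_mul_factorial_mul_factorial (n := m + i' + j' + 1) (k := j') (by omega)
    have h2 : m + i' + j' + 1 - j' = m + i' + 1 := by omega
    rw [h2] at this
    exact_mod_cast this.symm
  have hj1 : ((j' + 1)! : ℚ) = (j' + 1) * (j')! := by
    rw [Nat.factorial_succ]
    push_cast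
    ring
  have hpos1 : (0 : ℚ) < ((j')! : ℚ) := by exact_mod_cast Nat.factorial_pos _
  have hpos2 : (0 : ℚ) < ((i' + 1)! : ℚ) := by exact_mod_cast Nat.factorial_pos _
  have hpos3 : (0 : ℚ) < ((m + 1)! : ℚ) := by exact_mod_cast Nat.factorial_pos _
  have hjpos : (0 : ℚ) < (j' : ℚ) + 1 := by positivity
  set T : ℚ := ((m + i' + 1)! : ℚ) / ((i' + 1)! * (m + 1)!) with hT
  have h3 : ((m + i' + j' + 1)! : ℚ) * j' / ((i' + 1)! * (j' + 1)! * (m + 1)!) =
      C * (j' * T / (j' + 1)) := by
    rw [h1, hj1, hT]
    field_simp
  rw [h3]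
  -- lower bound for T
  have hT2 : ((m : ℚ) + i' + 1) / 2 ≤ T := by
    rw [hT, div_le_div_iff₀ (by norm_num) (by positivity)]
    obtain ⟨a, rfl⟩ : ∃ a, i' = a + 1 := ⟨i' - 1, by omega⟩
    obtain ⟨b, rfl⟩ : ∃ b, m = b + 1 := ⟨m - 1, by omega⟩
    have h4 := fac2 a b
    have h5 : (b + 1 + (a + 1) + 1)! = (b + 1 + (a + 1) + 1) * (a + b + 2)! := by
      have : b + 1 + (a + 1) + 1 = (a + b + 2) + 1 := by ring
      rw [this]
      exact Nat.factorial_succ (a + b + 2)
    have h6 : ((b + 1 + (a + 1) + 1) * ((a + 2)! * (b + 2)!)) ≤ (b + 1 + (a + 1) + 1)! * 2 := by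
      rw [h5]
      calc (b + 1 + (a + 1) + 1) * ((a + 2)! * (b + 2)!)
          ≤ (b + 1 + (a + 1) + 1) * (2 * (a + b + 2)!) := Nat.mul_le_mul_left _ h4
        _ = _ := by ring
    have h7 : ((((b + 1 + (a + 1) + 1) * ((a + 2)! * (b + 2)!)) : ℕ) : ℚ) ≤
        (((b + 1 + (a + 1) + 1)! * 2 : ℕ) : ℚ) := by exact_mod_cast h6
    push_cast at h7 ⊢
    have e1 : (a : ℕ) + 1 + 1 = a + 2 := by ring
    have e2 : (b : ℕ) + 1 + 1 = b + 2 := by ring
    rw [e1, e2]
    linarith
  by_cases hcase : 2 * ((j' : ℕ) + 1) ≤ j' * (m + i' + 1)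
  · have h8 : 1 ≤ j' * T / (j' + 1) := by
      rw [le_div_iff₀ hjpos]
      have h9 : (2 * ((j' : ℚ) + 1)) ≤ j' * ((m : ℚ) + i' + 1) := by exact_mod_cast hcase
      have h10 : (j' : ℚ) * (((m : ℚ) + i' + 1) / 2) ≤ j' * T :=
        mul_le_mul_of_nonneg_left hT2 (by positivity)
      linarith
    have h11 : C * 1 ≤ C * (j' * T / (j' + 1)) := mul_le_mul_of_nonneg_left h8 hCpos.le
    linarith
  · -- remaining case: j' = 1, i' = 1, m = 1
    have hj2 : j' = 1 := by
      by_contra hne
      apply hcase
      have h2j : 2 ≤ j' := by omega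
      have : j' * (j' + 2) ≤ j' * (m + i' + 1) := Nat.mul_le_mul_left _ (by omega)
      nlinarith
    subst hj2
    have hi2 : i' = 1 ∧ m = 1 := by omega
    obtain ⟨rfl, rfl⟩ := hi2
    have hCe : C = 4 := by
      rw [hC]
      norm_num [Nat.choose]
    have hTe : T = 3 / 2 := by
      rw [hT]
      norm_num [Nat.factorial]
    rw [hCe, hTe]
    norm_num

/-- **The cost of a split.** -/
theorem split_ineq : ∀ N i j m : ℕ, 1 ≤ i → 1 ≤ j → i + j + m = N + 1 →
    f N (i + j) + 1 ≤ (N ! : ℚ) / (i ! * j ! * m !) + f N i + f N j := by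
  intro N
  induction N with
  | zero =>
    intro i j m hi hj h
    omega
  | succ N ih =>
    -- it suffices to treat `j ≤ i`
    have key : ∀ i j m : ℕ, 1 ≤ j → j ≤ i → i + j + m = N + 1 + 1 →
        f (N + 1) (i + j) + 1 ≤ ((N + 1)! : ℚ) / (i ! * j ! * m !) + f (N + 1) i
          + f (N + 1) j := by
      intro i j m hj hij h
      rcases Nat.eq_zero_or_pos m with hm0 | hmpos
      · -- m = 0
        subst hm0
        have h1 : i + j = N + 1 + 1 := by omega
        rw [h1, f_total, add_assoc, f_compl (N + 1) j i (by omega)]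
        have h2 : i ! * j ! ≤ (N + 1)! := by
          obtain ⟨j', rfl⟩ : ∃ j', j = j' + 1 := ⟨j - 1, by omega⟩
          have := fac1 i (by omega) j'
          have h3 : i + j' = N + 1 := by omega
          rwa [h3] at this
        have h3 : (1 : ℚ) ≤ ((N + 1)! : ℚ) / (i ! * j ! * 0 !) := by
          have hpos : (0 : ℚ) < (i ! : ℚ) * j ! * 0 ! := by
            have a1 : (0 : ℚ) < (i ! : ℚ) := by exact_mod_cast Nat.factorial_pos _
            have a2 : (0 : ℚ) < (j ! : ℚ) := by exact_mod_cast Nat.factorial_pos _
            have a3 : (0 : ℚ) < ((0 : ℕ)! : ℚ) := by exact_mod_cast Nat.factorial_pos _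
            positivity
          rw [le_div_iff₀ hpos]
          have : ((i ! * j ! : ℕ) : ℚ) ≤ ((N + 1)! : ℕ) := by exact_mod_cast h2
          push_cast at this
          simpa using this
        linarith
      · rcases Nat.eq_or_lt_of_le hmpos with hm1 | hm2
        · -- m = 1
          have hm1' : m = 1 := hm1.symm
          subst hm1'
          have h1 : i + j = N + 1 := by omega
          have h2 := f_compl (N + 1) j (i + 1) (by omega)
          rw [f_succ] at h2
          have h3 : f (N + 1) (i + j) = 2 ^ (N + 1) - 1 := by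
            have := f_total (N + 1)
            rw [f_succ] at this
            rw [h1]
            simp only [Nat.choose_self, Nat.cast_one] at this
            linarith
          have h4 : (((N + 1).choose i : ℕ) : ℚ) = ((N + 1)! : ℚ) / (i ! * j ! * 1 !) := by
            have h5 := Nat.choose_mul_factorial_mul_factorial (n := N + 1) (k := i) (by omega)
            have h6 : N + 1 - i = j := by omega
            rw [h6] at h5
            rw [eq_div_iff]
            · rw [← h5]
              push_cast
              simp
              ring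
            · have a1 : (0 : ℚ) < (i ! : ℚ) := by exact_mod_cast Nat.factorial_pos _
              have a2 : (0 : ℚ) < (j ! : ℚ) := by exact_mod_cast Nat.factorial_pos _
              have a3 : (0 : ℚ) < ((1 : ℕ)! : ℚ) := by exact_mod_cast Nat.factorial_pos _
              positivity
          rw [h3, ← h4]
          linarith
        · -- m ≥ 2
          rcases Nat.eq_or_lt_of_le hj with hj1 | hj2
          · -- j = 1
            have hj1' : j = 1 := hj1.symm
            subst hj1'
            have h4 : (((N + 1).choose i : ℕ) : ℚ) = ((N + 1)! : ℚ) / (i ! * 1 ! * m !) := by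
              have h5 := Nat.choose_mul_factorial_mul_factorial (n := N + 1) (k := i) (by omega)
              have h6 : N + 1 - i = m := by omega
              rw [h6] at h5
              rw [eq_div_iff]
              · rw [← h5]
                push_cast
                simp
                ring
              · have a1 : (0 : ℚ) < (i ! : ℚ) := by exact_mod_cast Nat.factorial_pos _
                have a2 : (0 : ℚ) < (m ! : ℚ) := by exact_mod_cast Nat.factorial_pos _
                have a3 : (0 : ℚ) < ((1 : ℕ)! : ℚ) := by exact_mod_cast Nat.factorial_pos _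
                positivity
            rw [← h4, f_succ, f_one]
            linarith
          · -- the induction step
            obtain ⟨j', rfl⟩ : ∃ j', j = j' + 1 := ⟨j - 1, by omega⟩
            obtain ⟨i', rfl⟩ : ∃ i', i = i' + 1 := ⟨i - 1, by omega⟩
            obtain ⟨m', rfl⟩ : ∃ m', m = m' + 1 := ⟨m - 1, by omega⟩
            have hN : N = m' + i' + j' + 1 := by omega
            have ih1 := ih (i' + 1) (j' + 1) m' (by omega) (by omega) (by omega)
            have ih2 := ih i' (j' + 1) (m' + 1) (by omega) (by omega) (by omega)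
            have p1 : f (N + 1) (i' + 1 + (j' + 1)) = f N (i' + 1 + (j' + 1)) +
                f N (i' + (j' + 1)) := by
              have : i' + 1 + (j' + 1) = i' + (j' + 1) + 1 := by ring
              rw [this]
              exact f_pascal N _
            have p2 := f_pascal N i'
            have p3 := f_pascal N j'
            have p4 := f_succ N j'
            have e1 := err i' j' m' (by omega) (by omega) (by omega)
            rw [← hN] at e1
            -- the identity for the multinomial coefficients
            have e2 : ((N + 1)! : ℚ) / ((i' + 1)! * (j' + 1)! * (m' + 1)!) =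
                (N ! : ℚ) / ((i' + 1)! * (j' + 1)! * m' !) +
                (N ! : ℚ) / (i' ! * (j' + 1)! * (m' + 1)!) +
                (N ! : ℚ) * j' / ((i' + 1)! * (j' + 1)! * (m' + 1)!) := by
              have a1 : ((i' + 1)! : ℚ) = (i' + 1) * i' ! := by
                rw [Nat.factorial_succ]
                push_cast
                ring
              have a2 : ((m' + 1)! : ℚ) = (m' + 1) * m' ! := by
                rw [Nat.factorial_succ]
                push_cast
                ring
              have a3 : ((N + 1)! : ℚ) = (m' + i' + j' + 2) * N ! := by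
                rw [Nat.factorial_succ]
                push_cast
                have : (N : ℚ) = m' + i' + j' + 1 := by exact_mod_cast hN
                rw [this]
                ring
              have b1 : (i' ! : ℚ) ≠ 0 := by exact_mod_cast Nat.factorial_ne_zero _
              have b2 : (m' ! : ℚ) ≠ 0 := by exact_mod_cast Nat.factorial_ne_zero _
              have b3 : ((j' + 1)! : ℚ) ≠ 0 := by exact_mod_cast Nat.factorial_ne_zero _
              have b4 : (i' : ℚ) + 1 ≠ 0 := by positivity
              have b5 : (m' : ℚ) + 1 ≠ 0 := by positivity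
              rw [a1, a2, a3]
              field_simp
              ring
            rw [p1, p2, p3, e2]
            linarith
    intro i j m hi hj h
    rcases le_total j i with hji | hij
    · exact key i j m hj hji h
    · have := key j i m hi hij (by omega)
      rw [add_comm j i, mul_comm ((j ! : ℚ)) (i ! : ℚ)] at this
      linarith

end Pool.Agent.H176R4.MT
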