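import Mathlib
import Pool.Agent.H176R4.MT.Ineq
import Pool.Agent.H176R4.MT.Defs

/-!
Parse trees.
-/

set_option autoImplicit false

namespace Pool.Agent.H176R4.MT

open MvPolynomial Finset Nat

variable {n : ℕ} {K : Type} [CommRing K]

lemma pm_apply (σ : Equiv.Perm (Fin n)) (S : Finset (Fin n)) (i j : Fin n) :
    pm σ S (i, j) = if i ∈ S ∧ σ i = j then 1 else 0 := by
  classical
  unfold pm
  rw [Finsupp.finsetSum_apply]
  by_cases hi : i ∈ S
  · rw [Finset.sum_eq_single i]
    · rw [Finsupp.single_apply]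
      simp [hi]
    · intro b _ hb
      rw [Finsupp.single_apply, if_neg]
      intro h
      exact hb (Prod.ext_iff.mp h).1
    · intro h
      exact absurd hi h
  · rw [if_neg (fun h => hi h.1), Finset.sum_eq_zero]
    intro a ha
    rw [Finsupp.single_apply, if_neg]
    intro h
    have h2 : a = i := (Prod.ext_iff.mp h).1
    exact hi (h2 ▸ ha)

lemma split_pm (σ : Equiv.Perm (Fin n)) (S : Finset (Fin n)) (d₁ d₂ : (Fin n × Fin n) →₀ ℕ)
    (h : d₁ + d₂ = pm σ S) :
    ∃ S₁ S₂ : Finset (Fin n), Disjoint S₁ S₂ ∧ S₁ ∪ S₂ = S ∧ d₁ = pm σ S₁ ∧ d₂ = pm σ S₂ := by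
  classical
  refine ⟨S.filter fun i => d₁ (i, σ i) ≠ 0, S.filter fun i => ¬ d₁ (i, σ i) ≠ 0,
    Finset.disjoint_filter_filter_not _ _ _, Finset.filter_union_filter_not_eq _ _, ?_, ?_⟩
  · ext ⟨i, j⟩
    have h1 : d₁ (i, j) + d₂ (i, j) = if i ∈ S ∧ σ i = j then 1 else 0 := by
      rw [← pm_apply, ← h]
      rfl
    rw [pm_apply]
    by_cases hij : σ i = j
    · subst hij
      by_cases hi : i ∈ S
      · rw [if_pos ⟨hi, rfl⟩] at h1
        by_cases h0 : d₁ (i, σ i) = 0
        · rw [if_neg, h0]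
          rintro ⟨h2, _⟩
          exact (Finset.mem_filter.mp h2).2 h0
        · rw [if_pos ⟨Finset.mem_filter.mpr ⟨hi, h0⟩, rfl⟩]
          omega
      · rw [if_neg (fun h => hi h.1)] at h1
        rw [if_neg (fun h => hi (Finset.mem_filter.mp h.1).1)]
        omega
    · rw [if_neg (fun h => hij h.2)] at h1 ⊢
      omega
  · ext ⟨i, j⟩
    have h1 : d₁ (i, j) + d₂ (i, j) = if i ∈ S ∧ σ i = j then 1 else 0 := by
      rw [← pm_apply, ← h]
      rfl
    rw [pm_apply]
    by_cases hij : σ i = j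
    · subst hij
      by_cases hi : i ∈ S
      · rw [if_pos ⟨hi, rfl⟩] at h1
        by_cases h0 : d₁ (i, σ i) = 0
        · rw [if_pos ⟨Finset.mem_filter.mpr ⟨hi, not_not.mpr h0⟩, rfl⟩]
          omega
        · rw [if_neg]
          · omega
          · rintro ⟨h2, _⟩
            exact (Finset.mem_filter.mp h2).2 h0
      · rw [if_neg (fun h => hi h.1)] at h1
        rw [if_neg (fun h => hi (Finset.mem_filter.mp h.1).1)]
        omega
    · rw [if_neg (fun h => hij h.2)] at h1 ⊢
      omega

/-- the sum of the exponents -/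
lemma pm_degree (σ : Equiv.Perm (Fin n)) (S : Finset (Fin n)) :
    (pm σ S).degree = S.card := by
  unfold pm
  rw [map_sum]
  simp

/-- the potential of a set of `r` rows -/
def pot (n r : ℕ) : ℚ := if r = 0 then 0 else f (n - 1) r - 1

/-- the weight of a product of types of sizes `i` and `j` -/
def wgt (n i j : ℕ) : ℚ := ((n - 1)! : ℚ) / (i ! * j ! * (n - i - j)!)

lemma wgt_nonneg (n i j : ℕ) : 0 ≤ wgt n i j := by
  unfold wgt
  positivity

lemma pot_add (n i j : ℕ) (hi : 1 ≤ i) (hj : 1 ≤ j) (h : i + j ≤ n) :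
    pot n (i + j) ≤ wgt n i j + pot n i + pot n j := by
  unfold pot wgt
  rw [if_neg (by omega), if_neg (by omega), if_neg (by omega)]
  have := split_ineq (n - 1) i j (n - i - j) hi hj (by omega)
  linarith

/-- the events -/
abbrev Ev (Φ : Circuit K (Fin n × Fin n)) : Type :=
  Φ.Gate × (Finset (Fin n) × Finset (Fin n)) × (Finset (Fin n) × Finset (Fin n))

/-- the weight of an event -/
def ew {Φ : Circuit K (Fin n × Fin n)} (e : Ev Φ) : ℚ := wgt n e.2.1.1.card e.2.2.1.card

/-- the events of the permutation `σ` inside the rows `S` -/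
def Good (Φ : Circuit K (Fin n × Fin n)) (σ : Equiv.Perm (Fin n)) (S : Finset (Fin n))
    (e : Ev Φ) : Prop :=
  e ∈ Φ.homProducts ∧ e.2.1.1.map σ.toEmbedding = e.2.1.2 ∧
    e.2.2.1.map σ.toEmbedding = e.2.2.2 ∧ e.2.1.1 ∪ e.2.2.1 ⊆ S

lemma coeff_list_sum (l : List (MvPolynomial (Fin n × Fin n) K)) (m : (Fin n × Fin n) →₀ ℕ)
    (h : coeff m l.sum ≠ 0) : ∃ p ∈ l, coeff m p ≠ 0 := by
  by_contra hcon
  push Not at hcon
  apply h
  induction l with
  | nil => simp
  | cons a l ih =>
    rw [List.sum_cons, coeff_add, hcon a (List.mem_cons_self ..), zero_add]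
    by_contra h2
    exact h2 (ih h2 (fun p hp => hcon p (List.mem_cons_of_mem _ hp)))

theorem parse (Φ : Circuit K (Fin n × Fin n)) (σ : Equiv.Perm (Fin n)) :
    ∀ (h : ℕ) (g : Φ.Gate) (S : Finset (Fin n)), Φ.height g = h →
      coeff (pm σ S) (Φ.val g) ≠ 0 →
      ∃ E : Finset (Ev Φ), (∀ e ∈ E, Good Φ σ S e) ∧ pot n S.card ≤ ∑ e ∈ E, ew e := by
  classical
  intro h
  induction h using Nat.strong_induction_on with
  | _ h ih =>
    intro g S hg hc
    have hrule := Φ.rule g
    rcases hk : Φ.kind g with v | c | l | ⟨a, b⟩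
    · -- variable
      rw [hk] at hrule
      simp only at hrule
      rw [hrule, coeff_X] at hc
      have h1 : Finsupp.single v 1 = pm σ S := by
        by_contra hne
        rw [if_neg hne] at hc
        exact hc rfl
      have h2 : S.card = 1 := by
        rw [← pm_degree σ S, ← h1]
        simp
      refine ⟨∅, by simp, ?_⟩
      rw [h2, sum_empty]
      unfold pot
      rw [if_neg one_ne_zero, f_one, sub_self]
    · -- constant
      rw [hk] at hrule
      simp only at hrule
      rw [hrule, coeff_C] at hc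
      have h1 : 0 = pm σ S := by
        by_contra hne
        rw [if_neg hne] at hc
        exact hc rfl
      have h2 : S.card = 0 := by
        rw [← pm_degree σ S, ← h1]
        simp
      refine ⟨∅, by simp, ?_⟩
      rw [h2, sum_empty]
      unfold pot
      rw [if_pos rfl]
    · -- linear combination
      rw [hk] at hrule
      simp only at hrule
      obtain ⟨hh, hv⟩ := hrule
      rw [hv] at hc
      obtain ⟨p, hp, hpc⟩ := coeff_list_sum _ _ hc
      obtain ⟨q, hq, rfl⟩ := List.mem_map.mp hp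
      rw [coeff_C_mul] at hpc
      have h2 : coeff (pm σ S) (Φ.val q.2) ≠ 0 := right_ne_zero_of_mul hpc
      exact ih _ (hg ▸ hh q hq) q.2 S rfl h2
    · -- product
      have hk' := hk
      rw [hk] at hrule
      simp only at hrule
      obtain ⟨ha, hb, hv⟩ := hrule
      rw [hv, coeff_mul] at hc
      obtain ⟨⟨d₁, d₂⟩, hd, hne⟩ := Finset.exists_ne_zero_of_sum_ne_zero hc
      rw [Finset.HasAntidiagonal.mem_antidiagonal] at hd
      simp only at hd hne
      obtain ⟨S₁, S₂, hdisj, hun, rfl, rfl⟩ := split_pm σ S d₁ d₂ hd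
      have hc₁ : coeff (pm σ S₁) (Φ.val a) ≠ 0 := left_ne_zero_of_mul hne
      have hc₂ : coeff (pm σ S₂) (Φ.val b) ≠ 0 := right_ne_zero_of_mul hne
      obtain ⟨E₁, hE₁, hs₁⟩ := ih _ (hg ▸ ha) a S₁ rfl hc₁
      obtain ⟨E₂, hE₂, hs₂⟩ := ih _ (hg ▸ hb) b S₂ rfl hc₂
      rcases S₁.eq_empty_or_nonempty with h1 | h1
      · subst h1
        rw [Finset.empty_union] at hun
        subst hun
        exact ⟨E₂, hE₂, hs₂⟩
      rcases S₂.eq_empty_or_nonempty with h2 | h2
      · subst h2
        rw [Finset.union_empty] at hun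
        subst hun
        exact ⟨E₁, hE₁, hs₁⟩
      -- the new event
      let e₀ : Ev Φ := (g, (S₁, S₁.map σ.toEmbedding), (S₂, S₂.map σ.toEmbedding))
      have hT : Disjoint (S₁.map σ.toEmbedding) (S₂.map σ.toEmbedding) :=
        (Finset.disjoint_map _).mpr hdisj
      have he₀ : Good Φ σ S e₀ := by
        refine ⟨⟨a, b, hk', ⟨σ, rfl, hc₁⟩, ⟨σ, rfl, hc₂⟩, h1, h2, hdisj, hT⟩, rfl, rfl, ?_⟩
        exact hun.le
      have hmono : ∀ S' : Finset (Fin n), S' ⊆ S → ∀ e, Good Φ σ S' e → Good Φ σ S e :=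
        fun S' hS' e he => ⟨he.1, he.2.1, he.2.2.1, he.2.2.2.trans hS'⟩
      have hsub₁ : S₁ ⊆ S := hun ▸ Finset.subset_union_left
      have hsub₂ : S₂ ⊆ S := hun ▸ Finset.subset_union_right
      have hd12 : Disjoint E₁ E₂ := by
        rw [Finset.disjoint_left]
        intro e he1 he2
        have g1 := hE₁ e he1
        have g2 := hE₂ e he2
        obtain ⟨_, _, _, _, _, hne1, _⟩ := g1.1
        obtain ⟨x, hx⟩ := hne1
        have x1 : x ∈ S₁ := g1.2.2.2 (Finset.mem_union_left _ hx)
        have x2 : x ∈ S₂ := g2.2.2.2 (Finset.mem_union_left _ hx)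
        exact Finset.disjoint_left.mp hdisj x1 x2
      have hn0 : e₀ ∉ E₁ ∪ E₂ := by
        intro hmem
        rcases Finset.mem_union.mp hmem with hm | hm
        · have g1 := (hE₁ _ hm).2.2.2
          obtain ⟨x, hx⟩ := h2
          exact Finset.disjoint_left.mp hdisj (g1 (Finset.mem_union_right _ hx)) hx
        · have g1 := (hE₂ _ hm).2.2.2
          obtain ⟨x, hx⟩ := h1
          exact Finset.disjoint_left.mp hdisj hx (g1 (Finset.mem_union_left _ hx))
      refine ⟨insert e₀ (E₁ ∪ E₂), ?_, ?_⟩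
      · intro e he
        rcases Finset.mem_insert.mp he with rfl | he
        · exact he₀
        · rcases Finset.mem_union.mp he with he | he
          · exact hmono _ hsub₁ _ (hE₁ e he)
          · exact hmono _ hsub₂ _ (hE₂ e he)
      · rw [Finset.sum_insert hn0, Finset.sum_union hd12]
        have hcard : S.card = S₁.card + S₂.card := by
          rw [← hun, Finset.card_union_of_disjoint hdisj]
        have hle : S₁.card + S₂.card ≤ n := by
          rw [← hcard]
          simpa using Finset.card_le_univ S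
        have := pot_add n S₁.card S₂.card (Finset.card_pos.mpr h1) (Finset.card_pos.mpr h2) hle
        have hw : ew e₀ = wgt n S₁.card S₂.card := rfl
        rw [hcard, hw]
        linarith

end Pool.Agent.H176R4.MT
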