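import Mathlib
import Pool.Agent.H176R4.MT.Parse

/-!
Counting permutations: the lower bound for the number of homogeneous products.
-/

set_option autoImplicit false

namespace Pool.Agent.H176R4.MT

open MvPolynomial Finset Nat

variable {n : ℕ}

open Classical in
lemma card_perm_types (S₁ S₂ T₁ T₂ : Finset (Fin n)) (h : Disjoint S₁ S₂) :
    ((univ : Finset (Equiv.Perm (Fin n))).filter fun σ =>
      S₁.map σ.toEmbedding = T₁ ∧ S₂.map σ.toEmbedding = T₂).card ≤
      S₁.card ! * S₂.card ! * (n - S₁.card - S₂.card)! := by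
  rcases ((univ : Finset (Equiv.Perm (Fin n))).filter fun σ =>
      S₁.map σ.toEmbedding = T₁ ∧ S₂.map σ.toEmbedding = T₂).eq_empty_or_nonempty with h0 | ⟨σ₀, h0⟩
  · rw [h0, Finset.card_empty]
    exact Nat.zero_le _
  · rw [Finset.mem_filter] at h0
    obtain ⟨_, h01, h02⟩ := h0
    let f : Fin n → Fin 3 := fun i => if i ∈ S₁ then 0 else if i ∈ S₂ then 1 else 2
    have hf0 : ∀ i, f i = 0 ↔ i ∈ S₁ := by
      intro i
      simp only [f]
      split_ifs <;> simp_all
    have hf1 : ∀ i, f i = 1 ↔ i ∈ S₂ := by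
      intro i
      have := fun hx : i ∈ S₁ => Finset.disjoint_left.mp h hx
      simp only [f]
      split_ifs <;> simp_all
    have hf2 : ∀ i, f i = 2 ↔ i ∉ S₁ ∪ S₂ := by
      intro i
      rw [Finset.mem_union]
      simp only [f]
      split_ifs <;> simp_all
    have hcard := DomMulAct.stabilizer_card f
    rw [Fin.prod_univ_three] at hcard
    have c0 : Fintype.card {a // f a = 0} = S₁.card := by
      rw [Fintype.card_subtype]
      congr 1
      ext i
      simp [hf0]
    have c1 : Fintype.card {a // f a = 1} = S₂.card := by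
      rw [Fintype.card_subtype]
      congr 1
      ext i
      simp [hf1]
    have c2 : Fintype.card {a // f a = 2} = n - S₁.card - S₂.card := by
      rw [Fintype.card_subtype]
      have : (univ.filter fun i => f i = 2) = (S₁ ∪ S₂)ᶜ := by
        ext i
        simp [hf2]
      rw [this, Finset.card_compl, Finset.card_union_of_disjoint h, Fintype.card_fin]
      omega
    rw [c0, c1, c2] at hcard
    rw [← hcard, Fintype.card_subtype]
    apply Finset.card_le_card_of_injOn (fun σ => σ₀⁻¹ * σ)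
    · intro σ hσ
      rw [Finset.mem_coe, Finset.mem_filter] at hσ
      obtain ⟨_, h1, h2⟩ := hσ
      rw [Finset.mem_coe, Finset.mem_filter]
      refine ⟨mem_univ _, ?_⟩
      have k1 : ∀ i, (σ₀⁻¹ * σ) i ∈ S₁ ↔ i ∈ S₁ := by
        intro i
        have e1 : σ i ∈ T₁ ↔ i ∈ S₁ := by
          rw [← h1, Finset.mem_map_equiv]
          simp
        have e2 : σ i ∈ T₁ ↔ σ₀⁻¹ (σ i) ∈ S₁ := by
          rw [← h01, Finset.mem_map_equiv]
          rfl
        rw [Equiv.Perm.mul_apply, ← e2, e1]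
      have k2 : ∀ i, (σ₀⁻¹ * σ) i ∈ S₂ ↔ i ∈ S₂ := by
        intro i
        have e1 : σ i ∈ T₂ ↔ i ∈ S₂ := by
          rw [← h2, Finset.mem_map_equiv]
          simp
        have e2 : σ i ∈ T₂ ↔ σ₀⁻¹ (σ i) ∈ S₂ := by
          rw [← h02, Finset.mem_map_equiv]
          rfl
        rw [Equiv.Perm.mul_apply, ← e2, e1]
      funext i
      simp only [Function.comp, f, k1, k2]
    · intro a _ b _ hab
      exact mul_left_cancel hab

variable {K : Type} [CommRing K]

theorem finite_ev (Φ : Circuit K (Fin n × Fin n)) : Finite (Ev Φ) := by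
  have := Φ.fin
  infer_instance

/-- **The number of homogeneous products.** -/
theorem homProducts_bound (Φ : Circuit K (Fin n × Fin n)) (out : Φ.Gate)
    (hout : ∀ σ : Equiv.Perm (Fin n), coeff (pm σ univ) (Φ.val out) ≠ 0) :
    n * (2 ^ (n - 1) - 1) ≤ Φ.homProducts.ncard := by
  classical
  rcases Nat.eq_zero_or_pos n with hn | hn
  · subst hn
    simp
  have := finite_ev Φ
  have hfin : Φ.homProducts.Finite := Set.toFinite _
  rw [Set.ncard_eq_toFinset_card _ hfin]
  set H := hfin.toFinset with hH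
  choose E hE hsum using fun σ => parse Φ σ _ out univ rfl (hout σ)
  have hEH : ∀ σ, E σ ⊆ H := fun σ e he => by
    rw [hH, Set.Finite.mem_toFinset]
    exact (hE σ e he).1
  -- the double sum
  have h1 : ∑ σ : Equiv.Perm (Fin n), ∑ e ∈ E σ, ew e =
      ∑ e ∈ H, ew e * ((univ.filter fun σ => e ∈ E σ).card : ℚ) := by
    have h2 : ∀ σ, ∑ e ∈ E σ, ew e = ∑ e ∈ H, if e ∈ E σ then ew e else 0 := by
      intro σ
      have h20 : ∑ e ∈ E σ, ew e = ∑ e ∈ E σ, (if e ∈ E σ then ew e else 0) :=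
        Finset.sum_congr rfl (fun e he => (if_pos he).symm)
      rw [h20]
      exact Finset.sum_subset (hEH σ) (fun e _ he => if_neg he)
    simp_rw [h2]
    rw [Finset.sum_comm]
    apply Finset.sum_congr rfl
    intro e _
    have h21 : ∀ σ ∈ (univ : Finset (Equiv.Perm (Fin n))), (if e ∈ E σ then ew e else 0) =
        ew e * (if e ∈ E σ then 1 else 0) := by
      intro σ _
      split_ifs
      · rw [mul_one]
      · rw [mul_zero]
    rw [Finset.sum_congr rfl h21, ← Finset.mul_sum, Finset.card_filter]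
    push_cast
    congr 1
  have h3 : ∀ e ∈ H, ew e * ((univ.filter fun σ => e ∈ E σ).card : ℚ) ≤ ((n - 1)! : ℚ) := by
    intro e he
    rw [hH, Set.Finite.mem_toFinset] at he
    obtain ⟨a, b, _, _, _, _, _, hd, _⟩ := he
    have h4 : (univ.filter fun σ => e ∈ E σ).card ≤
        e.2.1.1.card ! * e.2.2.1.card ! * (n - e.2.1.1.card - e.2.2.1.card)! := by
      refine (Finset.card_le_card ?_).trans
        (card_perm_types e.2.1.1 e.2.2.1 e.2.1.2 e.2.2.2 hd)
      intro σ hσ
      rw [Finset.mem_filter] at hσ ⊢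
      exact ⟨mem_univ _, (hE σ e hσ.2).2.1, (hE σ e hσ.2).2.2.1⟩
    have h5 : ((univ.filter fun σ => e ∈ E σ).card : ℚ) ≤
        e.2.1.1.card ! * e.2.2.1.card ! * (n - e.2.1.1.card - e.2.2.1.card)! := by
      exact_mod_cast h4
    have h6 : ew e * ((univ.filter fun σ => e ∈ E σ).card : ℚ) ≤
        ew e * (e.2.1.1.card ! * e.2.2.1.card ! * (n - e.2.1.1.card - e.2.2.1.card)!) :=
      mul_le_mul_of_nonneg_left h5 (wgt_nonneg _ _ _)
    refine h6.trans (le_of_eq ?_)
    unfold ew wgt
    rw [div_mul_cancel₀]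
    have a1 : (0 : ℚ) < (e.2.1.1.card ! : ℚ) := by exact_mod_cast Nat.factorial_pos _
    have a2 : (0 : ℚ) < (e.2.2.1.card ! : ℚ) := by exact_mod_cast Nat.factorial_pos _
    have a3 : (0 : ℚ) < ((n - e.2.1.1.card - e.2.2.1.card)! : ℚ) := by
      exact_mod_cast Nat.factorial_pos _
    positivity
  have h7 : (n ! : ℚ) * pot n n ≤ H.card * (n - 1)! := by
    have h8 : ∑ σ : Equiv.Perm (Fin n), pot n n ≤ ∑ σ : Equiv.Perm (Fin n), ∑ e ∈ E σ, ew e := by
      apply Finset.sum_le_sum
      intro σ _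
      have := hsum σ
      rwa [Finset.card_univ, Fintype.card_fin] at this
    rw [Finset.sum_const, nsmul_eq_mul, Finset.card_univ, Fintype.card_perm, Fintype.card_fin,
      h1] at h8
    refine h8.trans ((Finset.sum_le_sum h3).trans (le_of_eq ?_))
    rw [Finset.sum_const, nsmul_eq_mul]
  have h9 : pot n n = 2 ^ (n - 1) - 1 := by
    unfold pot
    rw [if_neg (by omega)]
    have := f_total (n - 1)
    rw [Nat.sub_add_cancel hn] at this
    rw [this]
  have h10 : (n ! : ℚ) = n * (n - 1)! := by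
    obtain ⟨k, rfl⟩ : ∃ k, n = k + 1 := ⟨n - 1, by omega⟩
    rw [Nat.factorial_succ, Nat.add_sub_cancel]
    push_cast
    ring
  have h11 : (0 : ℚ) < ((n - 1)! : ℚ) := by exact_mod_cast Nat.factorial_pos _
  rw [h9, h10] at h7
  have h12 : (n : ℚ) * (2 ^ (n - 1) - 1) ≤ H.card := by
    have : (n : ℚ) * (2 ^ (n - 1) - 1) * (n - 1)! ≤ H.card * (n - 1)! := by linarith
    exact le_of_mul_le_mul_right this h11
  have h13 : (1 : ℕ) ≤ 2 ^ (n - 1) := Nat.one_le_two_pow
  have h14 : ((n * (2 ^ (n - 1) - 1) : ℕ) : ℚ) ≤ (H.card : ℚ) := by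
    rw [Nat.cast_mul, Nat.cast_sub h13]
    push_cast
    exact h12
  exact_mod_cast h14

end Pool.Agent.H176R4.MT
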