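import Mathlib
import Pool.Agent.H176R4.MT.Count
import Pool.Agent.H735R2.OneSym.Gen

/-!
Circuits with one diagonal symmetry.
-/

set_option autoImplicit false

namespace Pool.Agent.H176R4.MT

open MvPolynomial Finset
open Pool.Agent.H735R2.OneSym (scale Generic chi coeff_scale)

variable {n : ℕ} {K : Type} [Field K]

lemma chi_add (s t : Fin n → Kˣ) (d d' : (Fin n × Fin n) →₀ ℕ) :
    chi s t (d + d') = chi s t d * chi s t d' := by
  unfold chi
  rw [map_add, toMul_add]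

lemma chi_zero (s t : Fin n → Kˣ) : chi s t 0 = 1 := by
  unfold chi
  rw [map_zero, toMul_zero]

lemma chi_single (s t : Fin n → Kˣ) (v : Fin n × Fin n) :
    chi s t (Finsupp.single v 1) = s v.1 * t v.2 := by
  apply Units.ext
  rw [Pool.Agent.H735R2.OneSym.chi_eq, Finsupp.prod_single_index (by simp)]
  simp

lemma chi_pm (s t : Fin n → Kˣ) (σ : Equiv.Perm (Fin n)) (S : Finset (Fin n)) :
    chi s t (pm σ S) = (∏ i ∈ S, s i) * ∏ j ∈ S.map σ.toEmbedding, t j := by
  classical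
  rw [Finset.prod_map]
  unfold pm
  induction S using Finset.induction_on with
  | empty => simp [chi_zero]
  | insert a S ha ih =>
    rw [Finset.sum_insert ha, chi_add, ih, chi_single, Finset.prod_insert ha,
      Finset.prod_insert ha]
    simp only [Equiv.coe_toEmbedding]
    exact mul_mul_mul_comm _ _ _ _

/-- every gate is mapped to a multiple of a gate -/
def Circuit.Symm (Φ : Circuit K (Fin n × Fin n)) (s t : Fin n → Kˣ) : Prop :=
  ∀ g, ∃ h, ∃ c : K, scale s t (Φ.val g) = C c * Φ.val h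

/-- all powers of `(s, t)` are generic -/
def Generic' (s t : Fin n → Kˣ) : Prop :=
  ∀ m : ℕ, 1 ≤ m → Generic (fun i => s i ^ m) (fun j => t j ^ m)

/-- the gates are eigenvectors of a power -/
lemma exists_eigen (Φ : Circuit K (Fin n × Fin n)) (s t : Fin n → Kˣ) (h : Φ.Symm s t)
    (g : Φ.Gate) (hg : Φ.val g ≠ 0) :
    ∃ m : ℕ, 1 ≤ m ∧ ∃ c : K, ∀ d, coeff d (Φ.val g) ≠ 0 → ((chi s t d : Kˣ) : K) ^ m = c := by
  classical
  choose nx cc hcc using h
  have hstep : ∀ g d, ((chi s t d : Kˣ) : K) * coeff d (Φ.val g) =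
      cc g * coeff d (Φ.val (nx g)) := by
    intro g d
    rw [← coeff_scale, hcc g, coeff_C_mul]
  have hit : ∀ k : ℕ, ∃ c : K, ∀ d, ((chi s t d : Kˣ) : K) ^ k * coeff d (Φ.val g) =
      c * coeff d (Φ.val (nx^[k] g)) := by
    intro k
    induction k with
    | zero => exact ⟨1, fun d => by simp⟩
    | succ k ih =>
      obtain ⟨c, hc⟩ := ih
      refine ⟨c * cc (nx^[k] g), fun d => ?_⟩
      rw [pow_succ, mul_comm (((chi s t d : Kˣ) : K) ^ k), mul_assoc, hc d,
        Function.iterate_succ_apply', mul_left_comm, hstep, mul_assoc]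
  have := Φ.fin
  obtain ⟨a, b, hab, heq⟩ : ∃ a b : ℕ, a < b ∧ nx^[a] g = nx^[b] g := by
    obtain ⟨a, b, hne, heq⟩ := Finite.exists_ne_map_eq_of_infinite (fun k : ℕ => nx^[k] g)
    rcases lt_or_gt_of_ne hne with h1 | h1
    · exact ⟨a, b, h1, heq⟩
    · exact ⟨b, a, h1, heq.symm⟩
  obtain ⟨ca, ha⟩ := hit a
  obtain ⟨cb, hb⟩ := hit b
  obtain ⟨d₀, hd₀⟩ := MvPolynomial.ne_zero_iff.mp hg
  have hca : ca ≠ 0 := by
    intro h0
    have h1 := ha d₀
    rw [h0, zero_mul] at h1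
    exact mul_ne_zero (pow_ne_zero _ (Units.ne_zero _)) hd₀ h1
  refine ⟨b - a, by omega, cb / ca, fun d hd => ?_⟩
  have h1 := ha d
  have h2 := hb d
  rw [← heq] at h2
  have h3 : ((chi s t d : Kˣ) : K) ^ b = ((chi s t d : Kˣ) : K) ^ (b - a) *
      ((chi s t d : Kˣ) : K) ^ a := by
    rw [← pow_add]
    congr 1
    omega
  have hP : coeff d (Φ.val (nx^[a] g)) ≠ 0 := by
    intro h0
    rw [h0, mul_zero] at h1
    exact mul_ne_zero (pow_ne_zero _ (Units.ne_zero _)) hd h1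
  rw [h3, mul_assoc, h1] at h2
  rw [eq_div_iff hca]
  have h4 : (((chi s t d : Kˣ) : K) ^ (b - a) * ca) * coeff d (Φ.val (nx^[a] g)) =
      cb * coeff d (Φ.val (nx^[a] g)) := by
    rw [mul_assoc]
    exact h2
  exact mul_right_cancel₀ hP h4

/-- a gate has at most one type with a nonempty set of rows -/
lemma type_unique (Φ : Circuit K (Fin n × Fin n)) (s t : Fin n → Kˣ) (h : Φ.Symm s t)
    (hg : Generic' s t) (g : Φ.Gate) {S T S' T' : Finset (Fin n)}
    (h1 : HasType (Φ.val g) S T) (h2 : HasType (Φ.val g) S' T') (hS : S.Nonempty)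
    (hS' : S'.Nonempty) : S = S' ∧ T = T' := by
  obtain ⟨σ, rfl, hσ⟩ := h1
  obtain ⟨τ, rfl, hτ⟩ := h2
  have hne : Φ.val g ≠ 0 := by
    intro h0
    rw [h0] at hσ
    exact hσ (coeff_zero _)
  obtain ⟨m, hm, c, hc⟩ := exists_eigen Φ s t h g hne
  have e1 := hc _ hσ
  have e2 := hc _ hτ
  rw [← e2] at e1
  have e3 : chi s t (pm σ S) ^ m = chi s t (pm τ S') ^ m := by
    apply Units.ext
    push_cast
    exact e1
  rw [chi_pm, chi_pm, mul_pow, mul_pow, ← Finset.prod_pow, ← Finset.prod_pow,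
    ← Finset.prod_pow, ← Finset.prod_pow] at e3
  rcases hg m hm _ _ _ _ (by simp) (by simp) e3 with h3 | h3 | h3
  · exact h3
  · exact absurd h3.1 hS.ne_empty
  · exact absurd h3.2 hS'.ne_empty

/-- **Circuits with one diagonal symmetry.** -/
theorem symm_bound (Φ : Circuit K (Fin n × Fin n)) (out : Φ.Gate)
    (hout : ∀ σ : Equiv.Perm (Fin n), coeff (pm σ univ) (Φ.val out) ≠ 0)
    (s t : Fin n → Kˣ) (h : Φ.Symm s t) (hg : Generic' s t) :
    n * (2 ^ (n - 1) - 1) ≤ Φ.products := by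
  refine (homProducts_bound Φ out hout).trans ?_
  have := Φ.fin
  unfold Circuit.products
  apply Set.ncard_le_ncard_of_injOn (fun e => e.1)
  · rintro e ⟨a, b, hk, _⟩
    exact ⟨a, b, hk⟩
  · rintro ⟨g, ⟨S, T⟩, ⟨S', T'⟩⟩ ⟨a, b, hk, h1, h2, h3, h4, _⟩ ⟨g', ⟨R, Q⟩, ⟨R', Q'⟩⟩
      ⟨a', b', hk', h1', h2', h3', h4', _⟩ hgg
    simp only at hgg hk hk' h1 h2 h3 h4 h1' h2' h3' h4'
    subst hgg
    rw [hk] at hk'
    injection hk' with ha hb
    subst ha
    subst hb
    obtain ⟨rfl, rfl⟩ := type_unique Φ s t h hg a h1 h1' h3 h3'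
    obtain ⟨rfl, rfl⟩ := type_unique Φ s t h hg b h2 h2' h4 h4'
    rfl

/-- the span of the gates -/
noncomputable def Circuit.space (Φ : Circuit K (Fin n × Fin n)) :
    Submodule K (MvPolynomial (Fin n × Fin n) K) :=
  Submodule.span K (Set.range Φ.val)

/-- the types with nonempty sets of rows which occur in the gates -/
def Circuit.types (Φ : Circuit K (Fin n × Fin n)) : Set (Finset (Fin n) × Finset (Fin n)) :=
  {τ | τ.1.Nonempty ∧ ∃ g, HasType (Φ.val g) τ.1 τ.2}

lemma types_le (Φ : Circuit K (Fin n × Fin n)) (s t : Fin n → Kˣ)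
    (h : ∀ g, scale s t (Φ.val g) ∈ Φ.space) (hg : Generic s t) :
    Φ.types.ncard ≤ Module.finrank K Φ.space := by
  classical
  have hfin := Φ.fin
  have : FiniteDimensional K Φ.space := FiniteDimensional.span_of_finite K (Set.finite_range _)
  have hmap : ∀ p ∈ Φ.space, scale s t p ∈ Φ.space := by
    intro p hp
    unfold Circuit.space at hp
    induction hp using Submodule.span_induction with
    | mem x hx =>
      obtain ⟨g, rfl⟩ := hx
      exact h g
    | zero => rw [map_zero]; exact Submodule.zero_mem _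
    | add x y _ _ hx hy => rw [map_add]; exact Submodule.add_mem _ hx hy
    | smul a x _ hx => rw [map_smul]; exact Submodule.smul_mem _ _ hx
  let A : Φ.space →ₗ[K] Φ.space := (scale s t).toLinearMap.restrict hmap
  have hty : ∀ τ : Φ.types, ∃ g : Φ.Gate, ∃ σ : Equiv.Perm (Fin n),
      τ.1.1.map σ.toEmbedding = τ.1.2 ∧ coeff (pm σ τ.1.1) (Φ.val g) ≠ 0 := by
    rintro ⟨τ, h1, g, σ, h2, h3⟩
    exact ⟨g, σ, h2, h3⟩
  choose gg σσ h1 h2 using hty
  let ℓ : Φ.types → Module.Dual K Φ.space := fun τ =>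
    (lcoeff K (pm (σσ τ) τ.1.1)).comp Φ.space.subtype
  let μ : Φ.types → K := fun τ => ((chi s t (pm (σσ τ) τ.1.1) : Kˣ) : K)
  have hμ : Function.Injective μ := by
    intro τ τ' hh
    have e1 : chi s t (pm (σσ τ) τ.1.1) = chi s t (pm (σσ τ') τ'.1.1) := Units.ext hh
    rw [chi_pm, chi_pm, h1, h1] at e1
    rcases hg _ _ _ _ (by rw [← h1 τ]; simp) (by rw [← h1 τ']; simp) e1 with h3 | h3 | h3
    · exact Subtype.ext (Prod.ext h3.1 h3.2)
    · exact absurd h3.1 τ.2.1.ne_empty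
    · exact absurd h3.2 τ'.2.1.ne_empty
  have heig : ∀ τ, Module.End.HasEigenvector (A.dualMap) (μ τ) (ℓ τ) := by
    intro τ
    refine ⟨?_, ?_⟩
    · rw [Module.End.mem_eigenspace_iff]
      apply LinearMap.ext
      intro x
      simp only [LinearMap.dualMap_apply, LinearMap.smul_apply, smul_eq_mul, ℓ, μ, A,
        LinearMap.comp_apply, Submodule.subtype_apply, lcoeff_apply]
      exact coeff_scale s t _ _
    · intro h0
      apply h2 τ
      have : ℓ τ ⟨Φ.val (gg τ), Submodule.subset_span ⟨_, rfl⟩⟩ = 0 := by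
        rw [h0]
        rfl
      exact this
  have hli := Module.End.eigenvectors_linearIndependent' A.dualMap μ hμ ℓ heig
  have hft : Finite Φ.types := Set.toFinite _
  have := Fintype.ofFinite Φ.types
  have h5 := hli.fintype_card_le_finrank
  rw [Subspace.dual_finrank_eq, ← Nat.card_eq_fintype_card, Nat.card_coe_set_eq] at h5
  exact h5

/-- **Circuits whose span has one diagonal symmetry.** -/
theorem span_bound (Φ : Circuit K (Fin n × Fin n)) (out : Φ.Gate)
    (hout : ∀ σ : Equiv.Perm (Fin n), coeff (pm σ univ) (Φ.val out) ≠ 0)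
    (s t : Fin n → Kˣ) (h : ∀ g, scale s t (Φ.val g) ∈ Φ.space) (hg : Generic s t) :
    n * (2 ^ (n - 1) - 1) ≤ Φ.products * (Module.finrank K Φ.space) ^ 2 := by
  refine (homProducts_bound Φ out hout).trans ?_
  have hfin := Φ.fin
  have h1 := types_le Φ s t h hg
  have h2 : Φ.homProducts.ncard ≤
      ({g : Φ.Gate | ∃ a b, Φ.kind g = .mul a b} ×ˢ (Φ.types ×ˢ Φ.types)).ncard := by
    apply Set.ncard_le_ncard
    · rintro ⟨g, ⟨S, T⟩, ⟨S', T'⟩⟩ ⟨a, b, hk, h1, h2, h3, h4, _⟩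
      exact ⟨⟨a, b, hk⟩, ⟨h3, a, h1⟩, ⟨h4, b, h2⟩⟩
    · exact Set.toFinite _
  refine h2.trans ?_
  rw [Set.ncard_prod, Set.ncard_prod, sq]
  exact Nat.mul_le_mul_left _ (Nat.mul_le_mul h1 h1)

end Pool.Agent.H176R4.MT
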