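import Mathlib
import Pool.Agent.H176R4.MT.Sym

/-!
The Laplace circuit for the permanent.
-/

set_option autoImplicit false

namespace Pool.Agent.H176R4.MT

open MvPolynomial Finset
open Pool.Agent.H735R2.OneSym (scale)

section Rec

variable {n : ℕ} {R : Type} [CommRing R]

open Classical in
/-- the permanent of the first `k` rows and the columns `T` -/
noncomputable def L (x : ℕ → Fin n → R) (k : ℕ) (T : Finset (Fin n)) : R :=
  ∑ f : Fin k → Fin n, if Function.Injective f ∧ univ.image f = T then ∏ i : Fin k, x i (f i)
    else 0

/-- append a value -/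
def snocE (n k : ℕ) : (Fin n × (Fin k → Fin n)) ≃ (Fin (k + 1) → Fin n) where
  toFun p := Fin.snoc (α := fun _ => Fin n) p.2 p.1
  invFun f := (f (Fin.last k), Fin.init f)
  left_inv p := by
    simp
  right_inv f := by
    simp

lemma snoc_cond {k : ℕ} (g : Fin k → Fin n) (j : Fin n) (T : Finset (Fin n)) :
    (Function.Injective (Fin.snoc (α := fun _ => Fin n) g j) ∧
      univ.image (Fin.snoc (α := fun _ => Fin n) g j) = T) ↔
    (j ∈ T ∧ Function.Injective g ∧ univ.image g = T.erase j) := by
  classical
  have himg : univ.image (Fin.snoc (α := fun _ => Fin n) g j) = insert j (univ.image g) := by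
    ext a
    simp only [mem_image, mem_univ, true_and, mem_insert]
    constructor
    · rintro ⟨i, rfl⟩
      refine Fin.lastCases ?_ (fun i => ?_) i
      · left; simp
      · right; exact ⟨i, by simp⟩
    · rintro (rfl | ⟨i, rfl⟩)
      · exact ⟨Fin.last k, by simp⟩
      · exact ⟨i.castSucc, by simp⟩
  have hinj : Function.Injective (Fin.snoc (α := fun _ => Fin n) g j) ↔
      Function.Injective g ∧ j ∉ univ.image g := by
    constructor
    · intro h
      refine ⟨fun a b hab => ?_, ?_⟩
      · have : (Fin.snoc (α := fun _ => Fin n) g j) a.castSucc =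
            (Fin.snoc (α := fun _ => Fin n) g j) b.castSucc := by simpa using hab
        exact Fin.castSucc_injective _ (h this)
      · intro hj
        obtain ⟨i, _, hi⟩ := mem_image.mp hj
        have : (Fin.snoc (α := fun _ => Fin n) g j) i.castSucc =
            (Fin.snoc (α := fun _ => Fin n) g j) (Fin.last k) := by simpa using hi
        exact absurd (h this) (Fin.castSucc_lt_last i).ne
    · rintro ⟨h1, h2⟩ a b
      refine Fin.lastCases ?_ (fun a => ?_) a
      · refine Fin.lastCases ?_ (fun b => ?_) b
        · intro _; rfl
        · intro hab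
          exfalso
          apply h2
          rw [mem_image]
          exact ⟨b, mem_univ _, by simpa using hab.symm⟩
      · refine Fin.lastCases ?_ (fun b => ?_) b
        · intro hab
          exfalso
          apply h2
          rw [mem_image]
          exact ⟨a, mem_univ _, by simpa using hab⟩
        · intro hab
          have : g a = g b := by simpa using hab
          rw [h1 this]
  rw [himg, hinj]
  constructor
  · rintro ⟨⟨h1, h2⟩, rfl⟩
    exact ⟨mem_insert_self _ _, h1, (erase_insert h2).symm⟩
  · rintro ⟨h1, h2, h3⟩
    refine ⟨⟨h2, ?_⟩, ?_⟩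
    · rw [h3]
      exact notMem_erase _ _
    · rw [h3, insert_erase h1]

/-- Laplace expansion along the last row -/
lemma L_succ (x : ℕ → Fin n → R) (k : ℕ) (T : Finset (Fin n)) :
    L x (k + 1) T = ∑ j ∈ T, x k j * L x k (T.erase j) := by
  classical
  unfold L
  rw [← (snocE n k).sum_comp, Fintype.sum_prod_type]
  have h1 : ∀ j : Fin n, ∑ g : Fin k → Fin n,
      (if Function.Injective ((snocE n k) (j, g)) ∧ univ.image ((snocE n k) (j, g)) = T then
        ∏ i : Fin (k + 1), x i ((snocE n k) (j, g) i) else 0) =
      if j ∈ T then x k j * ∑ g : Fin k → Fin n,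
        (if Function.Injective g ∧ univ.image g = T.erase j then ∏ i : Fin k, x i (g i) else 0)
      else 0 := by
    intro j
    have h2 : ∀ g : Fin k → Fin n,
        (if Function.Injective ((snocE n k) (j, g)) ∧ univ.image ((snocE n k) (j, g)) = T then
          ∏ i : Fin (k + 1), x i ((snocE n k) (j, g) i) else 0) =
        if j ∈ T then x k j *
          (if Function.Injective g ∧ univ.image g = T.erase j then ∏ i : Fin k, x i (g i) else 0)
        else 0 := by
      intro g
      have h3 := snoc_cond g j T
      have h4 : (snocE n k) (j, g) = Fin.snoc (α := fun _ => Fin n) g j := rfl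
      rw [h4]
      by_cases hj : j ∈ T
      · rw [if_pos hj]
        by_cases hg : Function.Injective g ∧ univ.image g = T.erase j
        · rw [if_pos hg, if_pos (h3.mpr ⟨hj, hg⟩), Fin.prod_univ_castSucc]
          simp [mul_comm]
        · rw [if_neg hg, if_neg (fun h => hg (h3.mp h).2), mul_zero]
      · rw [if_neg hj, if_neg (fun h => hj (h3.mp h).1)]
    rw [Finset.sum_congr rfl (fun g _ => h2 g)]
    by_cases hj : j ∈ T
    · simp only [if_pos hj]
      rw [Finset.mul_sum]
    · simp only [if_neg hj]
      exact Finset.sum_const_zero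
  rw [Finset.sum_congr rfl (fun j _ => h1 j), Finset.sum_ite_mem, Finset.univ_inter]

lemma L_zero (x : ℕ → Fin n → R) : L x 0 ∅ = 1 := by
  classical
  unfold L
  simp [Function.injective_of_subsingleton]

lemma L_univ (x : ℕ → Fin n → R) :
    L x n univ = (Matrix.of fun i j : Fin n => x i j).permanent := by
  classical
  rw [← Matrix.permanent_transpose]
  unfold L Matrix.permanent
  rw [← Finset.sum_filter]
  symm
  apply Finset.sum_bij (fun (σ : Equiv.Perm (Fin n)) _ => (σ : Fin n → Fin n))
  · intro σ _
    rw [mem_filter]
    refine ⟨mem_univ _, σ.injective, ?_⟩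
    exact Finset.image_univ_of_surjective σ.surjective
  · intro σ _ τ _ h
    exact Equiv.coe_fn_injective h
  · intro f hf
    rw [mem_filter] at hf
    exact ⟨Equiv.ofBijective f (Finite.injective_iff_bijective.mp hf.2.1), mem_univ _, rfl⟩
  · intro σ _
    rfl

end Rec

end Pool.Agent.H176R4.MT
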