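import Mathlib
import Pool.Agent.H176R4.MT.Laplace

/-!
The Laplace circuit for the permanent.
-/

set_option autoImplicit false

namespace Pool.Agent.H176R4.MT

open MvPolynomial Finset
open Pool.Agent.H735R2.OneSym (scale)

variable {n : ℕ} {K : Type} [CommRing K]

/-- the matrix of variables with rows indexed by `ℕ` -/
noncomputable def xx (K : Type) [CommRing K] (n : ℕ) (i : ℕ) (j : Fin n) :
    MvPolynomial (Fin n × Fin n) K :=
  if h : i < n then X (⟨i, h⟩, j) else 0

/-- the pairs `(T, j)` with `j ∈ T` and `2 ≤ |T|` -/
abbrev MP (n : ℕ) : Type := {p : Finset (Fin n) × Fin n // p.2 ∈ p.1 ∧ 2 ≤ p.1.card}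

/-- the gates -/
abbrev LG (n : ℕ) : Type := (Fin n × Fin n) ⊕ Finset (Fin n) ⊕ MP n

/-- the last row -/
def row (T : Finset (Fin n)) (j : Fin n) : Fin n :=
  ⟨T.card - 1, by
    have h1 := Finset.card_le_univ T
    rw [Fintype.card_fin] at h1
    have h2 := j.pos
    omega⟩

lemma xx_row (T : Finset (Fin n)) (j : Fin n) : xx K n (T.card - 1) j = X (row T j, j) := by
  unfold xx
  have h : T.card - 1 < n := (row T j).2
  rw [dif_pos h]
  rfl

/-- the kinds of the gates -/
noncomputable def lkind (K : Type) [CommRing K] (n : ℕ) : LG n → Kind K (Fin n × Fin n) (LG n)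
  | .inl v => .var v
  | .inr (.inl T) =>
    if T.card = 0 then .const 1
    else if h : 2 ≤ T.card then
      .lin (T.attach.toList.map fun j => (1, .inr (.inr ⟨(T, j.1), j.2, h⟩)))
    else .lin (T.toList.map fun j => (1, .inl (row T j, j)))
  | .inr (.inr p) => .mul (.inl (row p.1.1 p.1.2, p.1.2)) (.inr (.inl (p.1.1.erase p.1.2)))

/-- the heights -/
def lheight (n : ℕ) : LG n → ℕ
  | .inl _ => 0
  | .inr (.inl T) => 2 * T.card + 1
  | .inr (.inr p) => 2 * p.1.1.card

/-- the values -/
noncomputable def lval (K : Type) [CommRing K] (n : ℕ) : LG n → MvPolynomial (Fin n × Fin n) K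
  | .inl v => X v
  | .inr (.inl T) => L (xx K n) T.card T
  | .inr (.inr p) => X (row p.1.1 p.1.2, p.1.2) *
      L (xx K n) (p.1.1.erase p.1.2).card (p.1.1.erase p.1.2)

/-- the Laplace circuit -/
noncomputable def laplace (K : Type) [CommRing K] (n : ℕ) : Circuit K (Fin n × Fin n) where
  Gate := LG n
  fin := inferInstance
  kind := lkind K n
  height := lheight n
  val := lval K n
  rule := by
    classical
    rintro (v | T | ⟨⟨T, j⟩, hj, hT⟩)
    · rfl
    · by_cases h0 : T.card = 0
      · have hk : lkind K n (.inr (.inl T)) = .const 1 := by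
          simp only [lkind]
          rw [if_pos h0]
        rw [hk]
        simp only
        have hT : T = ∅ := Finset.card_eq_zero.mp h0
        show L (xx K n) T.card T = C 1
        rw [h0, hT, L_zero, C_1]
      · by_cases h : 2 ≤ T.card
        · have hk : lkind K n (.inr (.inl T)) =
              .lin (T.attach.toList.map fun j => (1, .inr (.inr ⟨(T, j.1), j.2, h⟩))) := by
            simp only [lkind]
            rw [if_neg h0, dif_pos h]
          rw [hk]
          simp only
          refine ⟨?_, ?_⟩
          · intro p hp
            obtain ⟨j, _, rfl⟩ := List.mem_map.mp hp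
            show 2 * T.card < 2 * T.card + 1
            omega
          · rw [List.map_map, Finset.sum_map_toList]
            show L (xx K n) T.card T = _
            obtain ⟨k, hk⟩ : ∃ k, T.card = k + 1 := ⟨T.card - 1, by omega⟩
            conv_lhs => rw [hk]
            rw [L_succ, ← Finset.sum_attach]
            apply Finset.sum_congr rfl
            intro j _
            show _ = C 1 * (X (row T j.1, j.1) *
              L (xx K n) (T.erase j.1).card (T.erase j.1))
            rw [C_1, one_mul, Finset.card_erase_of_mem j.2, ← xx_row, hk, Nat.add_sub_cancel]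
        · have hk : lkind K n (.inr (.inl T)) =
              .lin (T.toList.map fun j => (1, .inl (row T j, j))) := by
            simp only [lkind]
            rw [if_neg h0, dif_neg h]
          rw [hk]
          simp only
          refine ⟨?_, ?_⟩
          · intro p hp
            obtain ⟨j, _, rfl⟩ := List.mem_map.mp hp
            show 0 < 2 * T.card + 1
            omega
          · rw [List.map_map, Finset.sum_map_toList]
            show L (xx K n) T.card T = _
            have h1 : T.card = 0 + 1 := by omega
            conv_lhs => rw [h1]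
            rw [L_succ]
            apply Finset.sum_congr rfl
            intro j hj
            show _ = C 1 * X (row T j, j)
            have h2 : T.erase j = ∅ := by
              rw [← Finset.card_eq_zero, Finset.card_erase_of_mem hj]
              omega
            rw [h2, L_zero, mul_one, C_1, one_mul, ← xx_row]
            congr 1
            omega
    · change j ∈ T at hj
      change 2 ≤ T.card at hT
      have hk : lkind K n (.inr (.inr ⟨(T, j), hj, hT⟩)) =
          .mul (.inl (row T j, j)) (.inr (.inl (T.erase j))) := rfl
      rw [hk]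
      simp only
      refine ⟨?_, ?_, rfl⟩
      · show 0 < 2 * T.card
        omega
      · show 2 * (T.erase j).card + 1 < 2 * T.card
        have : (T.erase j).card = T.card - 1 := Finset.card_erase_of_mem hj
        omega

lemma laplace_out (K : Type) [CommRing K] (n : ℕ) :
    (laplace K n).val (.inr (.inl univ)) =
      (Matrix.of fun i j : Fin n => (X (i, j) : MvPolynomial (Fin n × Fin n) K)).permanent := by
  show L (xx K n) (univ : Finset (Fin n)).card univ = _
  rw [Finset.card_univ, Fintype.card_fin, L_univ]
  congr 1
  ext i j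
  simp [xx]

lemma card_MP (n : ℕ) : Nat.card (MP n) = n * (2 ^ (n - 1) - 1) := by
  classical
  rw [Nat.card_eq_fintype_card, Fintype.card_subtype]
  have h1 : ((univ : Finset (Finset (Fin n) × Fin n)).filter
      fun p => p.2 ∈ p.1 ∧ 2 ≤ p.1.card).card =
      ∑ j : Fin n, ((univ : Finset (Finset (Fin n))).filter
        fun T => j ∈ T ∧ 2 ≤ T.card).card := by
    rw [Finset.card_filter, Fintype.sum_prod_type, Finset.sum_comm]
    apply Finset.sum_congr rfl
    intro j _
    rw [Finset.card_filter]
  rw [h1]
  have h2 : ∀ j : Fin n, ((univ : Finset (Finset (Fin n))).filter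
        fun T => j ∈ T ∧ 2 ≤ T.card).card = 2 ^ (n - 1) - 1 := by
    intro j
    have h3 : ((univ : Finset (Finset (Fin n))).filter fun T => j ∈ T ∧ 2 ≤ T.card) =
        (((univ.erase j).powerset).erase ∅).image (insert j) := by
      ext T
      rw [mem_filter, mem_image]
      constructor
      · rintro ⟨_, h4, h5⟩
        refine ⟨T.erase j, ?_, insert_erase h4⟩
        rw [mem_erase, mem_powerset]
        refine ⟨?_, Finset.erase_subset_erase _ (subset_univ _)⟩
        rw [Ne, ← Finset.card_eq_zero, Finset.card_erase_of_mem h4]
        omega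
      · rintro ⟨U, hU, rfl⟩
        rw [mem_erase, mem_powerset] at hU
        refine ⟨mem_univ _, mem_insert_self _ _, ?_⟩
        have h6 : j ∉ U := fun h => (mem_erase.mp (hU.2 h)).1 rfl
        rw [card_insert_of_notMem h6]
        have := Finset.card_pos.mpr (Finset.nonempty_iff_ne_empty.mpr hU.1)
        omega
    rw [h3, Finset.card_image_of_injOn]
    · rw [Finset.card_erase_of_mem (by simp), Finset.card_powerset,
        Finset.card_erase_of_mem (mem_univ _), Finset.card_univ, Fintype.card_fin]
    · intro U hU V hV h
      rw [mem_coe, mem_erase, mem_powerset] at hU hV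
      have h6 : j ∉ U := fun h => (mem_erase.mp (hU.2 h)).1 rfl
      have h7 : j ∉ V := fun h => (mem_erase.mp (hV.2 h)).1 rfl
      rw [← erase_insert h6, ← erase_insert h7, h]
  rw [Finset.sum_congr rfl (fun j _ => h2 j), Finset.sum_const, Finset.card_univ,
    Fintype.card_fin, smul_eq_mul]

lemma laplace_products (K : Type) [CommRing K] (n : ℕ) :
    (laplace K n).products = n * (2 ^ (n - 1) - 1) := by
  rw [← card_MP]
  unfold Circuit.products
  have h1 : {g : (laplace K n).Gate | ∃ a b, (laplace K n).kind g = .mul a b} =
      Set.range (fun p : MP n => (.inr (.inr p) : LG n)) := by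
    ext g
    constructor
    · rintro ⟨a, b, h⟩
      rcases g with v | T | p
      · exact absurd h (by show ¬ (Kind.var v = _); simp)
      · exfalso
        change lkind K n (.inr (.inl T)) = .mul a b at h
        simp only [lkind] at h
        split_ifs at h
      · exact ⟨p, rfl⟩
    · rintro ⟨p, rfl⟩
      exact ⟨_, _, rfl⟩
  have h2 : (Set.range (fun p : MP n => (.inr (.inr p) : LG n))).ncard = Nat.card (MP n) := by
    rw [← Set.image_univ, Set.ncard_image_of_injective _ (fun a b h => by simpa using h),
      Set.ncard_univ]
  exact (congrArg Set.ncard h1).trans h2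

section Field

variable {F : Type} [Field F]

/-- the factor of a row -/
noncomputable def sfac (s : Fin n → Fˣ) (i : ℕ) : F := if h : i < n then (s ⟨i, h⟩ : F) else 1

lemma scale_xx (s t : Fin n → Fˣ) (i : ℕ) (j : Fin n) :
    scale s t (xx F n i j) = C (sfac s i * (t j : F)) * xx F n i j := by
  unfold xx sfac
  by_cases h : i < n
  · rw [dif_pos h, dif_pos h, Pool.Agent.H735R2.OneSym.scale, aeval_X]
  · rw [dif_neg h, map_zero, mul_zero]

lemma scale_L (s t : Fin n → Fˣ) (k : ℕ) (T : Finset (Fin n)) :
    scale s t (L (xx F n) k T) =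
      C ((∏ i ∈ range k, sfac s i) * ∏ j ∈ T, (t j : F)) * L (xx F n) k T := by
  classical
  unfold L
  rw [map_sum, Finset.mul_sum]
  apply Finset.sum_congr rfl
  intro f _
  by_cases h : Function.Injective f ∧ univ.image f = T
  · rw [if_pos h, map_prod]
    simp only [scale_xx]
    rw [Finset.prod_mul_distrib, ← map_prod, Finset.prod_mul_distrib]
    congr 3
    · rw [Finset.prod_range]
    · rw [← h.2, Finset.prod_image (fun a _ b _ hab => h.1 hab)]
  · rw [if_neg h, map_zero, mul_zero]

lemma laplace_scale (s t : Fin n → Fˣ) (g : (laplace F n).Gate) :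
    ∃ c : F, scale s t ((laplace F n).val g) = C c * (laplace F n).val g := by
  rcases g with v | T | ⟨⟨T, j⟩, hj, hT⟩
  · refine ⟨(s v.1 : F) * (t v.2 : F), ?_⟩
    show scale s t (X v) = _ * X v
    rw [Pool.Agent.H735R2.OneSym.scale, aeval_X]
  · exact ⟨_, scale_L s t _ _⟩
  · refine ⟨((s (row T j) : F) * (t j : F)) *
      ((∏ i ∈ range (T.erase j).card, sfac s i) * ∏ j ∈ T.erase j, (t j : F)), ?_⟩
    show scale s t (X (row T j, j) * L (xx F n) (T.erase j).card (T.erase j)) =
      _ * (X (row T j, j) * L (xx F n) (T.erase j).card (T.erase j))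
    rw [map_mul, scale_L, Pool.Agent.H735R2.OneSym.scale, aeval_X]
    simp only [C_mul]
    ring

end Field

end Pool.Agent.H176R4.MT
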