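import Mathlib
import Pool.Agent.H176R4.MT.Circ

/-!
Existence of symmetries of the permanent all of whose powers are generic; coefficients of the
permanent.
-/

set_option autoImplicit false

namespace Pool.Agent.H176R4.MT

open MvPolynomial Finset
open Pool.Agent.H735R2.OneSym (scale Generic aE bE exp_generic enc enc_subset mem_enc_left
  mem_enc_right value)

theorem exists_generic' (m : ℕ) :
    ∃ s t : Fin m → ℂˣ, Generic' s t ∧ (∏ i, s i) * ∏ j, t j = 1 := by
  classical
  rcases Nat.eq_zero_or_pos m with rfl | hm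
  · refine ⟨fun i => 1, fun j => 1, ?_, by simp⟩
    intro _ _ S T S' T' _ _ _
    left
    exact ⟨Subsingleton.elim _ _, Subsingleton.elim _ _⟩
  · let u : ℂˣ := Units.mk0 2 two_ne_zero
    have hu : Function.Injective (fun n : ℤ => u ^ n) := by
      intro a b hab
      have h1 : ‖((u ^ a : ℂˣ) : ℂ)‖ = ‖((u ^ b : ℂˣ) : ℂ)‖ := by
        simp only at hab
        rw [hab]
      rw [Units.val_zpow_eq_zpow_val, Units.val_zpow_eq_zpow_val, norm_zpow, norm_zpow,
        Units.val_mk0, Complex.norm_ofNat] at h1
      exact zpow_right_injective₀ (by norm_num) (by norm_num) h1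
    have hprod : ∀ (k : ℕ) (S : Finset (Fin m)) (e : Fin m → ℤ),
        ∏ i ∈ S, (u ^ (e i)) ^ k = u ^ (k * ∑ i ∈ S, e i) := by
      intro k S e
      induction S using Finset.induction_on with
      | empty => simp
      | insert a S ha ih =>
        rw [Finset.prod_insert ha, Finset.sum_insert ha, mul_add, zpow_add, ih, ← zpow_natCast,
          ← zpow_mul, mul_comm (e a)]
    refine ⟨fun i => u ^ (aE i), fun j => u ^ (bE j), ?_, ?_⟩
    · intro k hk S T S' T' _ _ h
      rw [hprod, hprod, hprod, hprod, ← zpow_add, ← zpow_add] at h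
      have h1 := hu h
      rw [← mul_add, ← mul_add] at h1
      exact exp_generic hm (mul_left_cancel₀ (by exact_mod_cast (by omega : k ≠ 0)) h1)
    · have hp1 : ∀ e : Fin m → ℤ, ∏ i, u ^ (e i) = u ^ ∑ i, e i := by
        intro e
        have := hprod 1 univ e
        simpa using this
      rw [hp1, hp1, ← zpow_add, value, if_pos]
      · have h1 : enc (univ : Finset (Fin m)) univ = Finset.range (2 * m - 1) := by
          apply Finset.Subset.antisymm (enc_subset _ _)
          intro k hk
          rw [mem_range] at hk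
          by_cases h2 : k < m
          · exact (mem_enc_left (T := univ) (⟨k, h2⟩ : Fin m)).mpr (mem_univ _)
          · have h3 : k = m + (⟨k - m, by omega⟩ : Fin m).1 := by
              simp only
              omega
            rw [h3]
            refine (mem_enc_right _ ?_).mpr (mem_univ _)
            simp only
            omega
        rw [h1, sub_self, zpow_zero]
      · exact ⟨⟨m - 1, by omega⟩, mem_univ _, rfl⟩

lemma coeff_prod (K : Type) [CommRing K] (n : ℕ) (σ τ : Equiv.Perm (Fin n)) :
    coeff (pm σ univ) (∏ i, (X (i, τ i) : MvPolynomial (Fin n × Fin n) K)) =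
      if τ = σ then 1 else 0 := by
  classical
  have h1 : (∏ i, (X (i, τ i) : MvPolynomial (Fin n × Fin n) K)) = monomial (pm τ univ) 1 := by
    unfold pm
    rw [monomial_sum_one]
    rfl
  rw [h1, coeff_monomial]
  have h2 : pm τ univ = pm σ univ ↔ τ = σ := by
    constructor
    · intro h
      ext i
      have h3 : pm τ univ (i, τ i) = pm σ univ (i, τ i) := by rw [h]
      rw [pm_apply, pm_apply, if_pos ⟨mem_univ _, rfl⟩] at h3
      by_cases h4 : σ i = τ i
      · rw [h4]
      · rw [if_neg (fun h => h4 h.2)] at h3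
        exact absurd h3 one_ne_zero
    · rintro rfl
      rfl
  by_cases h : τ = σ
  · rw [if_pos h, if_pos (h2.mpr h)]
  · rw [if_neg h, if_neg (fun hh => h (h2.mp hh))]

/-- the coefficients of the permanent -/
lemma coeff_permanent (K : Type) [CommRing K] (n : ℕ) (σ : Equiv.Perm (Fin n)) :
    coeff (pm σ univ) (Matrix.of fun i j : Fin n =>
      (X (i, j) : MvPolynomial (Fin n × Fin n) K)).permanent = 1 := by
  classical
  rw [← Matrix.permanent_transpose]
  unfold Matrix.permanent
  rw [coeff_sum]
  have h1 : ∀ τ : Equiv.Perm (Fin n), coeff (pm σ univ) (∏ i,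
      (Matrix.transpose (Matrix.of fun i j : Fin n =>
        (X (i, j) : MvPolynomial (Fin n × Fin n) K))) (τ i) i) = if τ = σ then 1 else 0 :=
    fun τ => coeff_prod K n σ τ
  rw [Finset.sum_congr rfl (fun τ _ => h1 τ), Finset.sum_ite_eq']
  simp

/-- the coefficients of the determinant -/
lemma coeff_det (K : Type) [CommRing K] (n : ℕ) (σ : Equiv.Perm (Fin n)) :
    coeff (pm σ univ) (Matrix.of fun i j : Fin n =>
      (X (i, j) : MvPolynomial (Fin n × Fin n) K)).det =
      ((Equiv.Perm.sign σ : ℤ) : K) := by
  classical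
  rw [← Matrix.det_transpose, Matrix.det_apply', coeff_sum]
  have h1 : ∀ τ : Equiv.Perm (Fin n), coeff (pm σ univ)
      (((Equiv.Perm.sign τ : ℤ) : MvPolynomial (Fin n × Fin n) K) * ∏ i,
      (Matrix.transpose (Matrix.of fun i j : Fin n =>
        (X (i, j) : MvPolynomial (Fin n × Fin n) K))) (τ i) i) =
      if τ = σ then ((Equiv.Perm.sign τ : ℤ) : K) else 0 := by
    intro τ
    have h2 : (((Equiv.Perm.sign τ : ℤ) : MvPolynomial (Fin n × Fin n) K)) =
        C ((Equiv.Perm.sign τ : ℤ) : K) := by simp
    rw [h2, coeff_C_mul]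
    have h3 := coeff_prod K n σ τ
    have h4 : (∏ i, (Matrix.transpose (Matrix.of fun i j : Fin n =>
        (X (i, j) : MvPolynomial (Fin n × Fin n) K))) (τ i) i) =
        ∏ i, (X (i, τ i) : MvPolynomial (Fin n × Fin n) K) := rfl
    rw [h4, h3]
    split_ifs <;> simp
  rw [Finset.sum_congr rfl (fun τ _ => h1 τ), Finset.sum_ite_eq']
  simp

end Pool.Agent.H176R4.MT
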