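import Mathlib
import Pool.Agent.H176R4.MT.Gen

/-!
The Laplace circuit has as few homogeneous products as possible.
-/

set_option autoImplicit false

namespace Pool.Agent.H176R4.MT

open MvPolynomial Finset

variable {n : ℕ} {K : Type} [CommRing K]

/-- at most one type with a nonempty set of rows -/
def UniqType (p : MvPolynomial (Fin n × Fin n) K) : Prop :=
  ∀ S T S' T' : Finset (Fin n), HasType p S T → HasType p S' T' → S = S' ∧ T = T'

lemma homProducts_le_products (Φ : Circuit K (Fin n × Fin n))
    (h : ∀ g a b, Φ.kind g = .mul a b → UniqType (Φ.val a) ∧ UniqType (Φ.val b)) :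
    Φ.homProducts.ncard ≤ Φ.products := by
  have := Φ.fin
  unfold Circuit.products
  apply Set.ncard_le_ncard_of_injOn (fun e => e.1)
  · rintro e ⟨a, b, hk, _⟩
    exact ⟨a, b, hk⟩
  · rintro ⟨g, ⟨S, T⟩, ⟨S', T'⟩⟩ ⟨a, b, hk, h1, h2, h3, h4, _⟩ ⟨g', ⟨R, Q⟩, ⟨R', Q'⟩⟩
      ⟨a', b', hk', h1', h2', h3', h4', _⟩ hgg
    simp only at hgg hk hk' h1 h2 h3 h4 h1' h2' h3' h4'
    subst hgg
    obtain ⟨u1, u2⟩ := h _ _ _ hk
    rw [hk] at hk'
    injection hk' with ha hb
    subst ha
    subst hb
    obtain ⟨rfl, rfl⟩ := u1 _ _ _ _ h1 h1'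
    obtain ⟨rfl, rfl⟩ := u2 _ _ _ _ h2 h2'
    rfl

lemma uniq_X (v : Fin n × Fin n) : UniqType (X v : MvPolynomial (Fin n × Fin n) K) := by
  have key : ∀ S T : Finset (Fin n), HasType (X v : MvPolynomial (Fin n × Fin n) K) S T →
      S = {v.1} ∧ T = {v.2} := by
    rintro S T ⟨σ, rfl, hc⟩
    rw [coeff_X] at hc
    have h1 : Finsupp.single v 1 = pm σ S := by
      by_contra hne
      rw [if_neg hne] at hc
      exact hc rfl
    have h2 : S.card = 1 := by
      rw [← pm_degree σ S, ← h1]
      simp
    obtain ⟨a, rfl⟩ := Finset.card_eq_one.mp h2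
    have h3 : pm σ {a} (a, σ a) = 1 := by
      rw [pm_apply, if_pos ⟨mem_singleton_self _, rfl⟩]
    rw [← h1, Finsupp.single_apply] at h3
    have h4 : v = (a, σ a) := by
      by_contra hne
      rw [if_neg hne] at h3
      exact absurd h3 (by norm_num)
    subst h4
    refine ⟨rfl, ?_⟩
    rw [Finset.map_singleton]
    rfl
  intro S T S' T' h1 h2
  obtain ⟨rfl, rfl⟩ := key S T h1
  obtain ⟨rfl, rfl⟩ := key S' T' h2
  exact ⟨rfl, rfl⟩

lemma uniq_L (k : ℕ) (T₀ : Finset (Fin n)) : UniqType (L (xx K n) k T₀) := by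
  classical
  have key : ∀ S T : Finset (Fin n), HasType (L (xx K n) k T₀) S T →
      S = univ.filter (fun i : Fin n => i.1 < k) ∧ T = T₀ := by
    rintro S T ⟨σ, rfl, hc⟩
    unfold L at hc
    rw [coeff_sum] at hc
    obtain ⟨f, _, hf⟩ := Finset.exists_ne_zero_of_sum_ne_zero hc
    by_cases hcond : Function.Injective f ∧ univ.image f = T₀
    · rw [if_pos hcond] at hf
      obtain ⟨hinj, himg⟩ := hcond
      have hk : k ≤ n := by
        have := Fintype.card_le_of_injective f hinj
        simpa using this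
      have h1 : (∏ i : Fin k, xx K n i (f i)) =
          monomial (∑ i : Fin k, Finsupp.single (Fin.castLE hk i, f i) 1) 1 := by
        rw [monomial_sum_one]
        apply Finset.prod_congr rfl
        intro i _
        unfold xx
        have hi : (i : ℕ) < n := lt_of_lt_of_le i.2 hk
        rw [dif_pos hi]
        rfl
      rw [h1, coeff_monomial] at hf
      have h2 : (∑ i : Fin k, Finsupp.single (Fin.castLE hk i, f i) 1 :
          (Fin n × Fin n) →₀ ℕ) = pm σ S := by
        by_contra hne
        rw [if_neg hne] at hf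
        exact hf rfl
      have h3 : ∀ (a b : Fin n), (∑ i : Fin k, Finsupp.single (Fin.castLE hk i, f i) 1 :
          (Fin n × Fin n) →₀ ℕ) (a, b) = if ∃ i : Fin k, Fin.castLE hk i = a ∧ f i = b then 1
            else 0 := by
        intro a b
        rw [Finsupp.finsetSum_apply]
        by_cases hex : ∃ i : Fin k, Fin.castLE hk i = a ∧ f i = b
        · rw [if_pos hex]
          obtain ⟨i, rfl, rfl⟩ := hex
          rw [Finset.sum_eq_single i]
          · rw [Finsupp.single_apply, if_pos rfl]
          · intro j _ hj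
            rw [Finsupp.single_apply, if_neg]
            intro h
            exact hj (Fin.castLE_injective hk (Prod.ext_iff.mp h).1)
          · intro h
            exact absurd (mem_univ _) h
        · rw [if_neg hex, Finset.sum_eq_zero]
          intro i _
          rw [Finsupp.single_apply, if_neg]
          intro h
          exact hex ⟨i, (Prod.ext_iff.mp h).1, (Prod.ext_iff.mp h).2⟩
      have h4 : ∀ (a b : Fin n), (a ∈ S ∧ σ a = b) ↔
          ∃ i : Fin k, Fin.castLE hk i = a ∧ f i = b := by
        intro a b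
        have h5 := h3 a b
        rw [h2, pm_apply] at h5
        by_cases h6 : a ∈ S ∧ σ a = b
        · rw [if_pos h6] at h5
          refine ⟨fun _ => ?_, fun _ => h6⟩
          by_contra h7
          rw [if_neg h7] at h5
          exact one_ne_zero h5
        · rw [if_neg h6] at h5
          refine ⟨fun h => absurd h h6, fun h7 => ?_⟩
          rw [if_pos h7] at h5
          exact absurd h5 (by norm_num)
      refine ⟨?_, ?_⟩
      · ext a
        rw [mem_filter]
        constructor
        · intro ha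
          obtain ⟨i, rfl, _⟩ := (h4 a (σ a)).mp ⟨ha, rfl⟩
          exact ⟨mem_univ _, i.2⟩
        · rintro ⟨_, ha⟩
          exact ((h4 a (f ⟨a.1, ha⟩)).mpr ⟨⟨a.1, ha⟩, rfl, rfl⟩).1
      · rw [← himg]
        ext b
        rw [mem_map, mem_image]
        constructor
        · rintro ⟨a, ha, rfl⟩
          obtain ⟨i, _, hi⟩ := (h4 a (σ a)).mp ⟨ha, rfl⟩
          exact ⟨i, mem_univ _, hi⟩
        · rintro ⟨i, _, rfl⟩
          obtain ⟨h8, h9⟩ := (h4 (Fin.castLE hk i) (f i)).mpr ⟨i, rfl, rfl⟩
          exact ⟨_, h8, h9⟩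
    · rw [if_neg hcond] at hf
      exact absurd (coeff_zero _) hf
  intro S T S' T' h1 h2
  obtain ⟨rfl, rfl⟩ := key S T h1
  obtain ⟨rfl, rfl⟩ := key S' T' h2
  exact ⟨rfl, rfl⟩

lemma laplace_homProducts_le (K : Type) [CommRing K] (n : ℕ) :
    (laplace K n).homProducts.ncard ≤ n * (2 ^ (n - 1) - 1) := by
  rw [← laplace_products K n]
  apply homProducts_le_products
  intro g a b hg
  rcases g with v | T | p
  · exact absurd hg (by show ¬ (Kind.var v = _); simp)
  · exfalso
    change lkind K n (.inr (.inl T)) = .mul a b at hg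
    simp only [lkind] at hg
    split_ifs at hg
  · have h1 : Kind.mul (.inl (row p.1.1 p.1.2, p.1.2)) (.inr (.inl (p.1.1.erase p.1.2))) =
        (Kind.mul a b : Kind K (Fin n × Fin n) (LG n)) := hg
    injection h1 with ha hb
    subst ha
    subst hb
    exact ⟨uniq_X _, uniq_L _ _⟩

end Pool.Agent.H176R4.MT
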